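import Mathlib
import Pool.Agent.H24.LieNil

set_option autoImplicit false
open Pool.Agent.H24.Alg

namespace Pool.Agent.Results.MP_8011ed_lc.PerfectRegular

universe u w

theorem result (P : Type u) [Field P] (n r : ℕ) :
    (∀ (m : ℕ) (a b : Fin m → FreeLieAlgebra P (Fin r) ⧸
        LieModule.lowerCentralSeries P (FreeLieAlgebra P (Fin r)) (FreeLieAlgebra P (Fin r)) n),
      TypeEq P (fun p q => ⁅p, q⁆) (fun p q => ⁅p, q⁆) a b ↔
      ∃ σ : (FreeLieAlgebra P (Fin r) ⧸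
          LieModule.lowerCentralSeries P (FreeLieAlgebra P (Fin r)) (FreeLieAlgebra P (Fin r)) n)
        ≃ₗ⁅P⁆ (FreeLieAlgebra P (Fin r) ⧸
          LieModule.lowerCentralSeries P (FreeLieAlgebra P (Fin r)) (FreeLieAlgebra P (Fin r)) n),
        ∀ i, σ (a i) = b i) ∧
    (∀ (H : Type w) [LieRing H] [LieAlgebra P H], LieModule.lowerCentralSeries P H H n = ⊥ →
      Isotyp P (fun p q : FreeLieAlgebra P (Fin r) ⧸
          LieModule.lowerCentralSeries P (FreeLieAlgebra P (Fin r)) (FreeLieAlgebra P (Fin r)) n =>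
          ⁅p, q⁆) (fun p q : H => ⁅p, q⁆) →
      Nonempty ((FreeLieAlgebra P (Fin r) ⧸
          LieModule.lowerCentralSeries P (FreeLieAlgebra P (Fin r)) (FreeLieAlgebra P (Fin r)) n)
        ≃ₗ⁅P⁆ H)) := by
  refine ⟨fun m a b => ⟨fun hab => ?_, ?_⟩, ?_⟩
  · obtain ⟨σ, h1, h2⟩ := homog (br P (FN P r n)) lie_H (FN_nil r n) (FNx P r n) (FN_gen r n)
      (FN_ext r n) a b hab
    exact ⟨{ σ with map_lie' := fun {p q} => h1 p q }, h2⟩
  · rintro ⟨σ, h⟩
    exact typeEq_of_equiv _ _ σ.toLinearEquiv σ.map_lie a b h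
  · intro H _ _ _ hiso
    obtain ⟨e, he⟩ := separ (br P (FN P r n)) lie_H (FN_nil r n) (FNx P r n) (FN_gen r n)
      (FN_ext r n) _ hiso
    exact ⟨{ e with map_lie' := fun {p q} => he p q }⟩

end Pool.Agent.Results.MP_8011ed_lc.PerfectRegular
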